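import Pool.Agent.MWN.StmtsH

/-!
# Row NCX: the closure test for `β`
-/

namespace Pool.Agent.MWN.H33

open Pool.Agent.Helper14_MV Pool.Agent.Helper2_MV Pool.Agent.MVO Pool.Agent.MWL Pool.Agent.MWS
  Pool.Agent.MWF Pool.Agent.MWN

theorem ncx (ncl : NclStmt) (nhb : NhbStmt) : NcxStmt := by
  intro β hB hI X k A hX hc
  obtain ⟨-, -, -, hLR, hND, hJ2⟩ := nhb β hB hI
  have key : ∀ b : Bit, bcode b ∈ X → ¬ Has 1 (FC.ofFIC β) b := by
    intro b hb
    have h := hX _ hb
    cases b with
    | E =>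
      simp only [bcode] at h
      rcases h with h | ⟨_, h⟩ | ⟨h, _⟩ | ⟨h, _⟩ | ⟨h, _⟩ | ⟨h, _⟩ | ⟨h, _⟩
      · omega
      · exact h
      all_goals omega
    | F =>
      simp only [bcode] at h
      rcases h with h | ⟨h, _⟩ | ⟨_, h⟩ | ⟨h, _⟩ | ⟨h, _⟩ | ⟨h, _⟩ | ⟨h, _⟩
      · omega
      · omega
      · exact h
      all_goals omega
    | G =>
      simp only [bcode] at h
      rcases h with h | ⟨h, _⟩ | ⟨h, _⟩ | ⟨_, h⟩ | ⟨h, _⟩ | ⟨h, _⟩ | ⟨h, _⟩
      · omega
      · omega
      · omega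
      · exact h
      all_goals omega
    | D l =>
      simp only [bcode] at h
      rcases h with h | ⟨h, _⟩ | ⟨h, _⟩ | ⟨h, _⟩ | ⟨e, h⟩ | ⟨e, h⟩ | ⟨h, _⟩
      · omega
      · omega
      · omega
      · omega
      · have : l = 0 := by omega
        subst this
        exact h
      · have : l = 1 := by omega
        subst this
        exact h
      · omega
    | J q =>
      simp only [bcode] at h
      rcases h with h | ⟨h, _⟩ | ⟨h, _⟩ | ⟨h, _⟩ | ⟨h, _⟩ | ⟨h, _⟩ | ⟨e, h⟩
      · have : q = 2 := by omega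
        subst this
        exact hJ2
      · omega
      · omega
      · omega
      · omega
      · omega
      · have : q = 3 := by omega
        subst this
        exact h
  intro a c ha hac
  exact ncl 1 (FC.ofFIC β) hLR hND X k A key hc a c ha hac

end Pool.Agent.MWN.H33
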